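import Pool.Agent.Helper79_MT4.Stmt

/-! Module GR2 of the squad MT4: there is no graph stable under the orbit. -/

set_option autoImplicit false

namespace Pool.Agent.MT4.H7

open Module LinearMap

universe u v w

section
variable {K : Type u} {V : Type v} [Field K] [AddCommGroup V] [Module K V]

/-- transport of an endomorphism to a submodule by an isomorphism with a block -/
theorem transport (E X : End K V) (W : Submodule K V) (hc : X * E = E * X)
    (hinj : ∀ x ∈ W, E x = 0 → x = 0) (hsurj : ∀ x, ∃ y ∈ W, E y = E x) :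
    ∃ Y : End K W, ∀ x : W, E (Y x : V) = E (X (x : V)) := by
  let f : W →ₗ[K] LinearMap.range E := (E ∘ₗ W.subtype).codRestrict (LinearMap.range E)
    (fun x => ⟨_, rfl⟩)
  have hf : ∀ x : W, (f x : V) = E (x : V) := fun x => rfl
  have hbij : Function.Bijective f := by
    constructor
    · refine (injective_iff_map_eq_zero f).2 ?_
      intro x hx
      have h1 : E (x : V) = 0 := by rw [← hf, hx]; rfl
      exact Subtype.ext (hinj x x.2 h1)
    · rintro ⟨_, x, rfl⟩
      obtain ⟨y, hy, hyx⟩ := hsurj x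
      exact ⟨⟨y, hy⟩, Subtype.ext hyx⟩
  let α : W ≃ₗ[K] LinearMap.range E := LinearEquiv.ofBijective f hbij
  have hX : ∀ x ∈ LinearMap.range E, X x ∈ LinearMap.range E := by
    rintro _ ⟨x, rfl⟩
    exact ⟨X x, (LinearMap.congr_fun hc x).symm⟩
  refine ⟨α.symm.toLinearMap ∘ₗ (X.restrict hX) ∘ₗ α.toLinearMap, fun x => ?_⟩
  have h1 : α (α.symm ((X.restrict hX) (α x))) = (X.restrict hX) (α x) := α.apply_symm_apply _
  have h2 := congrArg (Subtype.val) h1
  have h3 : (α (α.symm ((X.restrict hX) (α x))) : V) = E (α.symm ((X.restrict hX) (α x)) : V) := rfl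
  rw [h3] at h2
  show E (α.symm ((X.restrict hX) (α x)) : V) = _
  rw [h2]
  show X (E x) = E (X x)
  exact LinearMap.congr_fun hc x

end

theorem gr2 (_hG : GrpStmt.{u, v, w}) (hO : OrbStmt.{u, v, w}) (hB : BasStmt.{u, v, w}) :
    Gr2Stmt.{u, v, w} := by
  intro K V ι _ _ _ _ _ _ ψ e σ g N hBlk hN i j hij W hW hWO hWi hWj
  obtain ⟨-, hR0, -, hconj, -⟩ := hO K V ι ψ e σ g N hBlk hN
  have hMg : ∀ M ∈ Orb e g N, M ∈ g := fun M hM => (hR0 M hM).1
  have hcM : ∀ M ∈ Orb e g N, ∀ k x, M (e k x) = e k (M x) := fun M hM k x =>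
    LinearMap.congr_fun (hBlk.comm M (hMg M hM) k) x
  by_contra hcon
  push Not at hcon
  obtain ⟨w₀, hw₀, hw₀0⟩ := hcon
  have : Nontrivial W := ⟨⟨⟨w₀, hw₀⟩, 0, fun h => hw₀0 (congrArg Subtype.val h)⟩⟩
  -- a stable nonzero submodule of `W` is everything
  have hbig : ∀ k, (k = i ∨ k = j) → ∀ E : Submodule K V, (∀ x ∈ E, x ∈ W) →
      (∀ M ∈ Orb e g N, ∀ x ∈ E, M x ∈ E) → (∃ x ∈ E, x ≠ 0) → ∀ x, ∃ y ∈ E, e k y = e k x := by
    intro k hk E hEW hEO hE x
    have hkW : ∀ x ∈ W, e k x = 0 → x = 0 := by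
      rcases hk with rfl | rfl
      · exact hWi
      · exact hWj
    have h3 := (hB K V ι ψ e σ g N hBlk hN k).2.2.1 (E.map (e k)) ?_ ?_
    · rcases h3 with h3 | h3
      · exfalso
        obtain ⟨y, hy, hy0⟩ := hE
        exact hy0 (hkW y (hEW y hy) (h3 _ (Submodule.mem_map_of_mem hy)))
      · obtain ⟨y, hy, hyx⟩ := Submodule.mem_map.1 (h3 x)
        exact ⟨y, hy, hyx⟩
    · rintro _ ⟨y, -, rfl⟩
      exact LinearMap.congr_fun (hBlk.idem k) y
    · rintro M hM _ ⟨y, hy, rfl⟩
      rw [hcM M hM k y]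
      exact Submodule.mem_map_of_mem (hEO M hM y hy)
  have hsi : ∀ x, ∃ y ∈ W, e i y = e i x := hbig i (Or.inl rfl) W (fun _ h => h) hWO
    ⟨w₀, hw₀, hw₀0⟩
  have hsj : ∀ x, ∃ y ∈ W, e j y = e j x := hbig j (Or.inr rfl) W (fun _ h => h) hWO
    ⟨w₀, hw₀, hw₀0⟩
  -- `W` is stable under `Hs`
  have hHs : ∀ h ∈ Hs e g, ∀ x ∈ W, h x ∈ W := by
    intro h hh
    obtain ⟨hhg, hh2, hhne⟩ := hh
    have hh : h ∈ Hs e g := ⟨hhg, hh2, hhne⟩
    have hch : ∀ k x, h (e k x) = e k (h x) := fun k x =>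
      LinearMap.congr_fun (hBlk.comm h hhg k) x
    have hhh : ∀ x, h (h x) = (1 / 4 : K) • x := fun x => by
      have := LinearMap.congr_fun hh2 x
      simpa using this
    -- the bracket `[h, M]` preserves `W`
    have hbr : ∀ M ∈ Orb e g N, ∀ x ∈ W, h (M x) - M (h x) ∈ W := by
      intro M hM x hx
      set P : End K V := (1 / 2 : K) • 1 + h with hP
      set Q : End K V := (1 / 2 : K) • 1 - h with hQ
      have hPx : ∀ x, P x = (1 / 2 : K) • x + h x := fun x => by simp [hP]
      have hQx : ∀ x, Q x = (1 / 2 : K) • x - h x := fun x => by simp [hQ]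
      have ht : ∀ t : K, t ≠ 0 → (P (M (P x)) + Q (M (Q x))) + t⁻¹ • P (M (Q x))
          + t • Q (M (P x)) ∈ W := by
        intro t ht
        have h1 := hconj M hM _ _ (Gp.tor h hh t ht 1 1 Gp.one)
        have h2 := hWO _ h1 x hx
        have h3 : ((P + t • Q) * 1 * M * (1 * (P + t⁻¹ • Q))) x =
            (P (M (P x)) + Q (M (Q x))) + t⁻¹ • P (M (Q x)) + t • Q (M (P x)) := by
          simp only [mul_one, one_mul, Module.End.mul_apply, LinearMap.add_apply,
            LinearMap.smul_apply, map_add, map_smul, smul_add, smul_smul, mul_inv_cancel₀ ht,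
            inv_mul_cancel₀ ht, one_smul]
          abel
        rw [← h3]
        exact h2
      have h1 := ht 1 one_ne_zero
      have h2 := ht (-1) (neg_ne_zero.2 one_ne_zero)
      have h3 := ht 2 two_ne_zero
      set X := P (M (P x)) + Q (M (Q x))
      set Y := P (M (Q x))
      set Z := Q (M (P x))
      have hY : Y - Z = h (M x) - M (h x) := by
        show P (M (Q x)) - Q (M (P x)) = _
        simp only [hPx, hQx, map_add, map_sub, map_smul, smul_add, smul_sub, smul_smul]
        match_scalars <;> ring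
      rw [← hY]
      have h4 : Y - Z = (3 / 2 : K) • (X + (1 : K)⁻¹ • Y + (1 : K) • Z)
          + (-(1 / 6) : K) • (X + (-1 : K)⁻¹ • Y + (-1 : K) • Z)
          + (-(4 / 3) : K) • (X + (2 : K)⁻¹ • Y + (2 : K) • Z) := by
        rw [inv_one, inv_neg, inv_one]
        match_scalars <;> norm_num
      rw [h4]
      exact Submodule.add_mem _ (Submodule.add_mem _
        (Submodule.smul_mem _ _ h1) (Submodule.smul_mem _ _ h2)) (Submodule.smul_mem _ _ h3)
    obtain ⟨Yi, hYi⟩ := transport (e i) h W (hBlk.comm h hhg i) hWi hsi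
    obtain ⟨Yj, hYj⟩ := transport (e j) h W (hBlk.comm h hhg j) hWj hsj
    -- commutation with the orbit
    have hcomm : ∀ k (Y : End K W), (∀ x ∈ W, e k x = 0 → x = 0) →
        (∀ x : W, e k (Y x : V) = e k (h (x : V))) → ∀ M (hM : M ∈ Orb e g N) (x : W),
        (Y ⟨M x, hWO M hM x x.2⟩ : V) - M (Y x : V) = h (M x) - M (h x) := by
      intro k Y hk hY M hM x
      have h1 : (Y ⟨M x, hWO M hM x x.2⟩ : V) - M (Y x : V) - (h (M x) - M (h x)) ∈ W :=
        Submodule.sub_mem _ (Submodule.sub_mem _ (Y ⟨M x, hWO M hM x x.2⟩).2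
          (hWO M hM _ (Y x).2)) (hbr M hM x x.2)
      have h2 := hk _ h1 ?_
      · exact sub_eq_zero.1 h2
      · rw [map_sub, map_sub, map_sub, hY, ← hcM M hM k (Y x : V), hY, hcM M hM k]
        show e k (h (M x)) - e k (M (h x)) - (e k (h (M x)) - e k (M (h x))) = 0
        abel
    -- squares
    have hsq : ∀ k (Y : End K W), (∀ x ∈ W, e k x = 0 → x = 0) →
        (∀ x : W, e k (Y x : V) = e k (h (x : V))) → ∀ x : W, Y (Y x) = (1 / 4 : K) • x := by
      intro k Y hk hY x
      apply Subtype.ext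
      rw [← sub_eq_zero]
      apply hk _ (Submodule.sub_mem _ (Y (Y x)).2 ((1 / 4 : K) • x).2)
      rw [map_sub, hY, ← hch k (Y x : V), hY, hch k, hhh, Submodule.coe_smul, map_smul, sub_self]
    set D : End K W := Yj - Yi with hD
    obtain ⟨χ, hχ⟩ := Module.End.exists_eigenvalue D
    have hDc : ∀ M (hM : M ∈ Orb e g N) (x : W), (D ⟨M x, hWO M hM x x.2⟩ : V) = M (D x : V) := by
      intro M hM x
      have h1 := hcomm i Yi hWi hYi M hM x
      have h2 := hcomm j Yj hWj hYj M hM x
      rw [hD]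
      simp only [LinearMap.sub_apply, Submodule.coe_sub, map_sub]
      rw [← h1] at h2
      rw [sub_eq_sub_iff_add_eq_add] at h2 ⊢
      rw [h2]
      abel
    -- `D = χ`
    have hDχ : ∀ x : W, D x = χ • x := by
      obtain ⟨v, hv⟩ := hχ.exists_hasEigenvector
      have h3 := hbig i (Or.inl rfl) ((Module.End.eigenspace D χ).map W.subtype) ?_ ?_ ?_
      · intro x
        obtain ⟨y, ⟨y', hy', rfl⟩, hyx⟩ := h3 (x : V)
        have h4 : (x : V) = (y' : V) := by
          rw [← sub_eq_zero]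
          apply hWi _ (Submodule.sub_mem _ x.2 y'.2)
          rw [map_sub, ← hyx]
          exact sub_self _
        have h5 : x = y' := Subtype.ext h4
        rw [h5]
        exact Module.End.mem_eigenspace_iff.1 hy'
      · rintro _ ⟨y, -, rfl⟩
        exact y.2
      · rintro M hM _ ⟨y, hy, rfl⟩
        refine ⟨⟨M y, hWO M hM y y.2⟩, ?_, rfl⟩
        have hy' := Module.End.mem_eigenspace_iff.1 hy
        apply Module.End.mem_eigenspace_iff.2
        apply Subtype.ext
        rw [hDc M hM y, hy', Submodule.coe_smul, map_smul]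
        rfl
      · refine ⟨v, ⟨v, hv.1, rfl⟩, ?_⟩
        intro h
        exact hv.2 (Subtype.ext h)
    have hχ0 : χ = 0 := by
      by_contra hχ0
      have h3 : ∀ x : W, Yi x = (-(χ / 2)) • x := by
        intro x
        have h4 := hsq i Yi hWi hYi x
        have h5 := hsq j Yj hWj hYj x
        have h6 : ∀ x, Yj x = Yi x + χ • x := by
          intro x
          rw [← hDχ x, hD]
          simp
        rw [h6 x, map_add, map_smul, h6, h6, h4] at h5
        have h7 : (2 * χ) • Yi x + (χ * χ) • x = 0 := by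
          have h8 : (2 * χ) • Yi x + (χ * χ) • x =
              ((1 / 4 : K) • x + χ • Yi x + χ • (Yi x + χ • x)) - (1 / 4 : K) • x := by
            match_scalars <;> ring
          rw [h8, h5, sub_self]
        have h9 : Yi x = (2 * χ)⁻¹ • ((2 * χ) • Yi x + (χ * χ) • x) + (-(χ / 2)) • x := by
          match_scalars <;> field_simp <;> ring
        rw [h9, h7, smul_zero, zero_add]
      have h4 : ∀ x, h (e i x) = (-(χ / 2)) • e i x := by
        intro x
        obtain ⟨y, hy, hyx⟩ := hsi x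
        have h5 := hYi ⟨y, hy⟩
        rw [h3] at h5
        simp only [Submodule.coe_smul, map_smul] at h5
        rw [hch, ← hyx, h5, ← hch, ← hch, ← hyx]
      obtain ⟨x₁, hx₁⟩ : ∃ x, e i x ≠ 0 := ⟨w₀, fun h => hw₀0 (hWi w₀ hw₀ h)⟩
      have h5 := hhh (e i x₁)
      rw [h4, map_smul, h4, smul_smul] at h5
      have h6 : (-(χ / 2)) * (-(χ / 2)) = 1 / 4 := smul_left_injective K hx₁ h5
      have h7 : (χ - 1) * (χ + 1) = 0 := by
        have : (χ - 1) * (χ + 1) = 4 * ((-(χ / 2)) * (-(χ / 2)) - 1 / 4) := by ring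
        rw [this, h6]; ring
      obtain ⟨h8, h9⟩ := hhne i
      rcases mul_eq_zero.1 h7 with h10 | h10
      · apply h9
        ext x
        rw [Module.End.mul_apply, h4, sub_eq_zero.1 h10]
        simp
      · apply h8
        ext x
        rw [Module.End.mul_apply, h4, eq_neg_of_add_eq_zero_left h10, LinearMap.smul_apply]
        congr 1
        ring
    intro x hx
    have h3 : Yj ⟨x, hx⟩ = Yi ⟨x, hx⟩ := by
      have := hDχ ⟨x, hx⟩
      rw [hχ0, zero_smul, hD, LinearMap.sub_apply, sub_eq_zero] at this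
      exact this
    have h4 : h x = (Yi ⟨x, hx⟩ : V) := by
      rw [← hW _ (Yi ⟨x, hx⟩).2]
      conv_rhs => rw [← h3]
      rw [h3, hYi, ← h3, hYj]
      show h x = e i (h x) + e j (h x)
      rw [← hch, ← hch, ← map_add, hW x hx]
    rw [h4]
    exact (Yi ⟨x, hx⟩).2
  rcases hBlk.irr W hHs i with h3 | h3
  · apply hw₀0
    apply hWi _ hw₀
    apply hWj _ (h3 w₀)
    exact LinearMap.congr_fun (hBlk.orth j i (Ne.symm hij)) w₀
  · exact hw₀0 (hWi w₀ hw₀ (h3 w₀ hw₀))

end Pool.Agent.MT4.H7
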