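import Pool.Agent.Helper79_MT4.Stmt

/-! Module LIE of the squad MT4: the theorem on Lie algebras. -/

set_option autoImplicit false

namespace Pool.Agent.MT4.H7

open Module LinearMap Polynomial

universe u v w

section
variable {K : Type u} {V : Type v} [Field K] [AddCommGroup V] [Module K V]

/-- the compression of an endomorphism to the image of an idempotent -/
noncomputable def cmp (E : End K V) : End K V →ₗ[K] End K (LinearMap.range E) where
  toFun X := E.rangeRestrict ∘ₗ X ∘ₗ (LinearMap.range E).subtype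
  map_add' X Y := by
    ext x
    simp
  map_smul' c X := by
    ext x
    simp

theorem cmp_apply (E X : End K V) (x : LinearMap.range E) : (cmp E X x : V) = E (X (x : V)) := rfl

theorem fix_of_mem (E : End K V) (hE : E * E = E) (x : LinearMap.range E) : E (x : V) = x := by
  obtain ⟨_, y, rfl⟩ := x
  exact LinearMap.congr_fun hE y

theorem cmp_mul (E X Y : End K V) (hE : E * E = E) (hX : X * E = E * X) :
    cmp E (X * Y) = cmp E X * cmp E Y := by
  ext x
  rw [Module.End.mul_apply, cmp_apply, cmp_apply, cmp_apply]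
  have h1 : X (E (Y (x : V))) = E (X (Y (x : V))) := LinearMap.congr_fun hX _
  have h2 : E (E (X (Y (x : V)))) = E (X (Y (x : V))) := LinearMap.congr_fun hE _
  rw [h1, h2]
  rfl

theorem trace_cmp [FiniteDimensional K V] (E X : End K V) :
    trace K (LinearMap.range E) (cmp E X) = trace K V (X * E) := by
  show trace K _ (E.rangeRestrict ∘ₗ (X ∘ₗ (LinearMap.range E).subtype)) = _
  rw [LinearMap.trace_comp_comm']
  rfl

theorem rankOne_cmp (E M : End K V) (hE : E * E = E) (hM : M * E = E * M)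
    (h : RankOne (M * E)) : RankOne (cmp E M) := by
  obtain ⟨x, φ, hx, hφ, hxφ⟩ := h
  obtain ⟨y, hy⟩ : ∃ y, φ y ≠ 0 := by
    by_contra hcon
    push Not at hcon
    exact hφ (LinearMap.ext hcon)
  have h1 : ∀ z, M (E z) = φ z • x := fun z => LinearMap.congr_fun hxφ z
  have hxE : x ∈ LinearMap.range E := by
    refine ⟨(φ y)⁻¹ • M y, ?_⟩
    have h2 : E (M y) = M (E y) := (LinearMap.congr_fun hM y).symm
    rw [map_smul, h2, h1, smul_smul, inv_mul_cancel₀ hy, one_smul]
  refine ⟨⟨x, hxE⟩, φ ∘ₗ (LinearMap.range E).subtype, ?_, ?_, ?_⟩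
  · intro h
    exact hx (congrArg Subtype.val h)
  · intro h
    have h2 := LinearMap.congr_fun h ⟨E y, y, rfl⟩
    have h3 : φ (E y) = 0 := h2
    have h4 := h1 (E y)
    have h5 : E (E y) = E y := LinearMap.congr_fun hE y
    rw [h5, h1, h3, zero_smul] at h4
    rcases smul_eq_zero.1 h4 with h6 | h6
    · exact hy h6
    · exact hx h6
  · ext z
    have h2 : E (M (z : V)) = M (E (z : V)) := (LinearMap.congr_fun hM z).symm
    rw [cmp_apply, h2, h1]
    rfl

end

theorem lie (hCur : CurStmt.{u, v}) (hOrb : OrbStmt.{u, v, w}) (_hGrp : GrpStmt.{u, v, w})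
    (hIrr : IrrStmt.{u, v, w}) (_hRk : RkStmt.{u, v}) (hBas : BasStmt.{u, v, w})
    (hGam : GamStmt.{u, v, w}) (hLam : LamStmt.{u, v, w}) (hSl1 : Sl1Stmt.{u, v})
    (hSl2 : Sl2Stmt.{u, v}) (hSl3 : Sl3Stmt.{u, v}) : LieStmt.{u, v, w} := by
  intro K V ι _ _ _ _ _ _ _ ψ e σ g N hBlk hN i a b ha hb hab
  obtain ⟨-, hR0, -, -, -⟩ := hOrb K V ι ψ e σ g N hBlk hN
  obtain ⟨-, -, -, -, -, -, hlin⟩ := hCur K V
  have hMg : ∀ M ∈ Orb e g N, M ∈ g := fun M hM => (hR0 M hM).1
  have hcM : ∀ M ∈ Orb e g N, M * e i = e i * M := fun M hM => hBlk.comm M (hMg M hM) i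
  have hid := hBlk.idem i
  set E : End K V := e i + e (σ i) with hE
  have hEE : E * E = E := by
    rw [hE, mul_add, add_mul, add_mul, hBlk.idem, hBlk.idem, hBlk.orth i (σ i) (hBlk.nfix i).symm,
      hBlk.orth (σ i) i (hBlk.nfix i), add_zero, zero_add]
  let g' : Submodule K (End K V) :=
    { carrier := {X | X ∈ g ∧ X * E = X}
      add_mem' := fun {X Y} hX hY => ⟨g.add_mem hX.1 hY.1, by rw [add_mul, hX.2, hY.2]⟩
      zero_mem' := ⟨g.zero_mem, zero_mul E⟩
      smul_mem' := fun c X hX => ⟨g.smul_mem c hX.1, by rw [smul_mul_assoc, hX.2]⟩ }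
  let L : Submodule K (End K (LinearMap.range (e i))) := g'.map (cmp (e i))
  let O' : Set (End K (LinearMap.range (e i))) := (cmp (e i)) '' (Orb e g N)
  have hsub : ∀ M ∈ Orb e g N, cmp (e i) M ∈ L := by
    intro M hM
    refine ⟨M * E, ⟨hLam K V ι ψ e σ g N hBlk hN i M hM, ?_⟩, ?_⟩
    · rw [mul_assoc, hEE]
    · ext x
      rw [cmp_apply, cmp_apply]
      have h1 : e i (x : V) = x := fix_of_mem _ hid x
      have h2 : e (σ i) (x : V) = 0 := by
        rw [← h1]
        exact LinearMap.congr_fun (hBlk.orth (σ i) i (hBlk.nfix i)) x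
      have h3 : E (x : V) = x := by
        rw [hE, LinearMap.add_apply, h1, h2, add_zero]
      rw [Module.End.mul_apply, h3]
  have hbr : ∀ X ∈ L, ∀ Y ∈ L, X * Y - Y * X ∈ L := by
    rintro _ ⟨X, ⟨hX, hXE⟩, rfl⟩ _ ⟨Y, ⟨hY, hYE⟩, rfl⟩
    refine ⟨X * Y - Y * X, ⟨hBlk.br X hX Y hY, ?_⟩, ?_⟩
    · rw [sub_mul, mul_assoc, mul_assoc, hXE, hYE]
    · rw [map_sub, cmp_mul _ _ _ hid (hBlk.comm X hX i), cmp_mul _ _ _ hid (hBlk.comm Y hY i)]
  have hrk : ∀ M ∈ Orb e g N, RankOne (cmp (e i) M) := fun M hM =>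
    rankOne_cmp _ _ hid (hcM M hM) ((hR0 M hM).2.2 i)
  have hsq : ∀ M ∈ Orb e g N, cmp (e i) M * cmp (e i) M = 0 := by
    intro M hM
    rw [← cmp_mul _ _ _ hid (hcM M hM), (hR0 M hM).2.1, map_zero]
  have hFam : Fam L O' := by
    refine ⟨hbr, ?_, ?_, ?_, ?_, ?_, ?_⟩
    · rintro _ ⟨M, hM, rfl⟩
      exact hsub M hM
    · rintro _ ⟨M, hM, rfl⟩
      exact hrk M hM
    · rintro _ ⟨M, hM, rfl⟩
      exact hsq M hM
    · intro F₁ F₂ F₃ hF
      have hP1 : ∀ F : End K (LinearMap.range (e i)) →ₗ[K] K,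
          PolyOn (fun A _ _ : End K V => F (cmp (e i) A)) := by
        intro F p q r hp hq hr
        exact hlin (F ∘ₗ cmp (e i)) p hp
      have hP2 : PolyOn (fun A _ _ : End K V => F₂ (cmp (e i) A) * F₃ (cmp (e i) A)) := by
        intro p q r hp hq hr
        obtain ⟨P, hP⟩ := hlin (F₂ ∘ₗ cmp (e i)) p hp
        obtain ⟨Q, hQ⟩ := hlin (F₃ ∘ₗ cmp (e i)) p hp
        refine ⟨P * Q, fun s => ?_⟩
        rw [Polynomial.eval_mul, ← hP, ← hQ]
        rfl
      rcases hIrr K V ι ψ e σ g N hBlk hN _ _ (hP1 F₁) hP2 (fun A hA B hB C hC => by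
        have := hF _ ⟨A, hA, rfl⟩
        rw [mul_assoc] at this
        exact this) with h1 | h1
      · left
        rintro _ ⟨M, hM, rfl⟩
        exact h1 M hM M hM M hM
      · right
        rcases hIrr K V ι ψ e σ g N hBlk hN _ _ (hP1 F₂) (hP1 F₃) h1 with h2 | h2
        · left
          rintro _ ⟨M, hM, rfl⟩
          exact h2 M hM M hM M hM
        · right
          rintro _ ⟨M, hM, rfl⟩
          exact h2 M hM M hM M hM
    · intro x hx
      apply Subtype.ext
      apply (hBas K V ι ψ e σ g N hBlk hN i).1 (x : V) (fix_of_mem _ hid x)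
      intro M hM
      have h1 := congrArg Subtype.val (hx _ ⟨M, hM, rfl⟩)
      rw [cmp_apply] at h1
      have h2 : e i (M (x : V)) = M (e i (x : V)) := (LinearMap.congr_fun (hcM M hM) x).symm
      rw [h2, fix_of_mem _ hid x] at h1
      exact h1
    · intro F hF
      have h1 := (hBas K V ι ψ e σ g N hBlk hN i).2.1 (F ∘ₗ (e i).rangeRestrict) (by
        intro M hM x
        have h2 := hF _ ⟨M, hM, rfl⟩ ((e i).rangeRestrict x)
        have h3 : cmp (e i) M ((e i).rangeRestrict x) = (e i).rangeRestrict (e i (M x)) := by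
          apply Subtype.ext
          show e i (M (e i x)) = e i (e i (M x))
          congr 1
          exact LinearMap.congr_fun (hcM M hM) x
        rw [h3] at h2
        exact h2)
      ext ⟨_, x, rfl⟩
      have h2 := h1 x
      have h3 : (e i).rangeRestrict (e i x) = ⟨e i x, x, rfl⟩ := by
        apply Subtype.ext
        exact LinearMap.congr_fun hid x
      rw [LinearMap.comp_apply, h3] at h2
      exact h2
  obtain ⟨A, hA, B, hB, C, hC, hAB, hAC, hABC⟩ := hGam K V ι ψ e σ g N hBlk hN i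
  obtain ⟨x, f, φ, hx, hf, hφ, hfx, hφx, hfL, hφL⟩ := hSl1 K (LinearMap.range (e i)) L hbr
    _ (hsub A hA) _ (hsub B hB) _ (hsub C hC) (hrk A hA) (hrk B hB) (hrk C hC)
    (hsq A hA) (hsq B hB) (hsq C hC)
    (by rw [← cmp_mul _ _ _ hid (hcM A hA), trace_cmp]; exact hAB)
    (by rw [← cmp_mul _ _ _ hid (hcM A hA), trace_cmp]; exact hAC)
    (by
      rw [mul_assoc, mul_assoc, ← cmp_mul _ _ _ hid (hcM B hB), ← cmp_mul _ _ _ hid (hcM A hA),
        ← cmp_mul _ _ _ hid (hcM A hA), ← cmp_mul _ _ _ hid (hcM B hB), trace_cmp, trace_cmp,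
        ← mul_assoc, ← mul_assoc]
      exact hABC)
  obtain ⟨y, hy, hyL⟩ := hSl2 K _ L O' hFam x f φ hx hf hφ hfx hφx hfL hφL
  have hall := hSl3 K _ L O' hFam y hy hyL
  have hba : ψ b a = 0 := by rw [hBlk.skew, hab, neg_zero]
  obtain ⟨X, ⟨hX, hXE⟩, hXc⟩ := hall ⟨a, a, ha⟩ ((ψ b) ∘ₗ (LinearMap.range (e i)).subtype) hba
  have hXi : ∀ x, X (e i x) = ψ b x • a := by
    intro x
    have h1 := congrArg Subtype.val (LinearMap.congr_fun hXc ((e i).rangeRestrict x))
    rw [cmp_apply] at h1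
    have h2 : e i (X (e i x)) = ψ b (e i x) • a := h1
    have h3 : e i (X (e i x)) = X (e i (e i x)) :=
      (LinearMap.congr_fun (hBlk.comm X hX i) (e i x)).symm
    have h4 : e i (e i x) = e i x := LinearMap.congr_fun hid x
    have h5 : ψ b (e i x) = ψ b x := by
      rw [hBlk.skew, hBlk.adj, hb, ← hBlk.skew]
    rw [h3, h4, h5] at h2
    exact h2
  have hXσ : ∀ x, X (e (σ i) x) = ψ a x • b := by
    intro x
    rw [← sub_eq_zero]
    apply hBlk.nψ
    intro y
    have h1 : e i (X y) = ψ b y • a := by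
      rw [← hXi]
      exact (LinearMap.congr_fun (hBlk.comm X hX i) y).symm
    have h2 : ψ (X (e (σ i) x)) y = ψ a x * ψ b y := by
      rw [hBlk.sp X hX, hBlk.adj, hBlk.inv, h1, map_smul, smul_eq_mul, hBlk.skew x a]
      ring
    rw [map_sub, LinearMap.sub_apply, h2, map_smul, LinearMap.smul_apply, smul_eq_mul, sub_self]
  have hfin : rr ψ a b = X := by
    ext x
    rw [← hXE, Module.End.mul_apply, hE, LinearMap.add_apply, map_add, hXi, hXσ, add_comm]
    rfl
  rw [hfin]
  exact hX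

end Pool.Agent.MT4.H7
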