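import Pool.Agent.Helper79_MT4.Stmt

/-! Module SL2 of the squad MT4: some vector has all its transvections in `L`. -/

set_option autoImplicit false

namespace Pool.Agent.MT4.H7

open Module LinearMap

universe u v w

section
variable {K : Type u} {W : Type v} [Field K] [AddCommGroup W] [Module K W]

/-- the functionals `θ` with `θ(w)=0` and `w ⊗ θ ∈ L` -/
def DD (L : Submodule K (End K W)) (w : W) : Submodule K (W →ₗ[K] K) where
  carrier := {θ | θ w = 0 ∧ θ.smulRight w ∈ L}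
  add_mem' := by
    rintro a b ⟨ha, ha'⟩ ⟨hb, hb'⟩
    refine ⟨by simp [ha, hb], ?_⟩
    have : (a + b).smulRight w = a.smulRight w + b.smulRight w := by
      ext x; simp [add_smul]
    rw [this]
    exact L.add_mem ha' hb'
  zero_mem' := by
    refine ⟨by simp, ?_⟩
    have : (0 : W →ₗ[K] K).smulRight w = 0 := by ext x; simp
    rw [this]; exact L.zero_mem
  smul_mem' := by
    rintro c a ⟨ha, ha'⟩
    refine ⟨by simp [ha], ?_⟩
    have : (c • a).smulRight w = c • a.smulRight w := by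
      ext x; simp [mul_smul]
    rw [this]; exact L.smul_mem _ ha'

theorem mem_DD {L : Submodule K (End K W)} {w : W} {θ : W →ₗ[K] K} :
    θ ∈ DD L w ↔ θ w = 0 ∧ θ.smulRight w ∈ L := Iff.rfl

/-- bracket of two rank one maps -/
theorem bra (u w : W) (l δ : W →ₗ[K] K) :
    l.smulRight u * δ.smulRight w - δ.smulRight w * l.smulRight u =
      l w • δ.smulRight u - δ u • l.smulRight w := by
  ext x
  simp only [Module.End.mul_apply, LinearMap.sub_apply, LinearMap.smulRight_apply,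
    LinearMap.smul_apply, map_smul, smul_smul]
  congr 1
  · rw [mul_comm]
  · rw [mul_comm]

/-- conjugation by `1 + t w⊗δ` -/
theorem conj_mem (h2 : (2 : K) ≠ 0) (L : Submodule K (End K W))
    (br : ∀ X ∈ L, ∀ Y ∈ L, X * Y - Y * X ∈ L)
    (u w : W) (l δ : W →ₗ[K] K) (hl : l.smulRight u ∈ L) (hδ : δ ∈ DD L w) (t : K) :
    (l - (t * l w) • δ).smulRight (u + (t * δ u) • w) ∈ L := by
  obtain ⟨hδw, hδL⟩ := hδ
  have h1 := br _ hδL _ hl
  have h3 := br _ hδL _ h1
  have key : (l - (t * l w) • δ).smulRight (u + (t * δ u) • w) = l.smulRight u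
      + t • (δ.smulRight w * l.smulRight u - l.smulRight u * δ.smulRight w)
      + (t ^ 2 / 2) • (δ.smulRight w * (δ.smulRight w * l.smulRight u - l.smulRight u * δ.smulRight w)
          - (δ.smulRight w * l.smulRight u - l.smulRight u * δ.smulRight w) * δ.smulRight w) := by
    rw [← neg_sub (l.smulRight u * δ.smulRight w), bra]
    ext x
    simp only [Module.End.mul_apply, LinearMap.sub_apply, LinearMap.smulRight_apply,
      LinearMap.smul_apply, map_smul, smul_smul, LinearMap.add_apply, LinearMap.neg_apply,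
      map_sub, map_neg, hδw, smul_eq_mul]
    have : t ^ 2 / 2 * 2 = t ^ 2 := by field_simp
    match_scalars
    · ring
    · field_simp
      ring
  rw [key]
  exact L.add_mem (L.add_mem hl (L.smul_mem _ h1)) (L.smul_mem _ h3)

/-- a functional separates a vector from `0` -/
theorem exists_fun_ne {x : W} (hx : x ≠ 0) : ∃ f : W →ₗ[K] K, f x ≠ 0 := by
  by_contra h
  push Not at h
  exact hx ((Module.forall_dual_apply_eq_zero_iff K x).1 h)

variable [FiniteDimensional K W]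

theorem finrank_sup_span {V' : Type v} [AddCommGroup V'] [Module K V'] [FiniteDimensional K V']
    (P : Submodule K V') (x : V') (hx : x ∉ P) : finrank K P < finrank K ↥(P ⊔ K ∙ x) := by
  apply Submodule.finrank_lt_finrank_of_lt
  refine lt_of_le_of_ne le_sup_left ?_
  intro h
  apply hx
  rw [h]
  exact Submodule.mem_sup_right (Submodule.mem_span_singleton_self x)

theorem finrank_sup_span_le {V' : Type v} [AddCommGroup V'] [Module K V'] [FiniteDimensional K V']
    (P : Submodule K V') (x : V') : finrank K ↥(P ⊔ K ∙ x) ≤ finrank K P + 1 :=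
  le_trans (Submodule.finrank_add_le_finrank_add_finrank P (K ∙ x))
    (Nat.add_le_add_left (finrank_span_le_card _ |>.trans (by simp)) _)

/-- the structure of `DD L u` for `u ⊗ l ∈ L` when `w` is maximal -/
theorem struc (L : Submodule K (End K W)) (br : ∀ X ∈ L, ∀ Y ∈ L, X * Y - Y * X ∈ L)
    (w : W) (hmax : ∀ u : W, u ≠ 0 → finrank K (DD L u) ≤ finrank K (DD L w))
    (u : W) (hu : u ≠ 0) (l : W →ₗ[K] K) (hl : l ∈ DD L u) (hlw : l w ≠ 0) :
    (∃ δ ∈ DD L w, δ u ≠ 0) ∧ ∀ θ ∈ DD L u, ∃ δ ∈ DD L w, ∃ c : K, δ u = 0 ∧ θ = δ + c • l := by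
  have hlD : l ∉ DD L w := fun h => hlw h.1
  have ha : ∀ δ ∈ DD L w, δ u = 0 → δ ∈ DD L u := by
    intro δ hδ hδu
    refine ⟨hδu, ?_⟩
    have h := br _ hl.2 _ hδ.2
    rw [bra, hδu, zero_smul, sub_zero] at h
    have := L.smul_mem (l w)⁻¹ h
    rwa [smul_smul, inv_mul_cancel₀ hlw, one_smul] at this
  have h1 : ∃ δ ∈ DD L w, δ u ≠ 0 := by
    by_contra hcon
    push Not at hcon
    have hle : DD L w ⊔ K ∙ l ≤ DD L u := by
      refine sup_le (fun δ hδ => ha δ hδ (hcon δ hδ)) ?_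
      rw [Submodule.span_singleton_le_iff_mem]
      exact hl
    have h3 := finrank_sup_span (DD L w) l hlD
    have h4 := Submodule.finrank_mono hle
    have h5 := hmax u hu
    omega
  refine ⟨h1, ?_⟩
  obtain ⟨δ', hδ', hδ'u⟩ := h1
  set P : Submodule K (W →ₗ[K] K) := DD L w ⊓ LinearMap.ker (LinearMap.applyₗ (R := K) u) with hP
  have hPmem : ∀ δ, δ ∈ P ↔ δ ∈ DD L w ∧ δ u = 0 := by
    intro δ
    rw [hP, Submodule.mem_inf, LinearMap.mem_ker]
    rfl
  have hd : finrank K (DD L w) ≤ finrank K P + 1 := by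
    refine le_trans (Submodule.finrank_mono ?_) (finrank_sup_span_le P δ')
    intro θ hθ
    rw [Submodule.mem_sup]
    refine ⟨θ - (θ u / δ' u) • δ', ?_, (θ u / δ' u) • δ', ?_, by simp⟩
    · rw [hPmem]
      refine ⟨Submodule.sub_mem _ hθ (Submodule.smul_mem _ _ hδ'), ?_⟩
      simp only [LinearMap.sub_apply, LinearMap.smul_apply, smul_eq_mul]
      field_simp
      ring
    · exact Submodule.smul_mem _ _ (Submodule.mem_span_singleton_self _)
  have hlP : l ∉ P := fun h => hlD ((hPmem l).1 h).1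
  intro θ hθ
  have hmem : θ ∈ P ⊔ K ∙ l := by
    by_contra hcon
    have h3 := finrank_sup_span P l hlP
    have h4 := finrank_sup_span (P ⊔ K ∙ l) θ hcon
    have hle : (P ⊔ K ∙ l) ⊔ K ∙ θ ≤ DD L u := by
      refine sup_le (sup_le (fun δ hδ => ?_) ?_) ?_
      · rw [hPmem] at hδ
        exact ha δ hδ.1 hδ.2
      · rw [Submodule.span_singleton_le_iff_mem]; exact hl
      · rw [Submodule.span_singleton_le_iff_mem]; exact hθ
    have h5 := Submodule.finrank_mono hle
    have h6 := hmax u hu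
    omega
  rw [Submodule.mem_sup] at hmem
  obtain ⟨δ, hδ, y, hy, hsum⟩ := hmem
  rw [Submodule.mem_span_singleton] at hy
  obtain ⟨c, rfl⟩ := hy
  rw [hPmem] at hδ
  exact ⟨δ, hδ.1, c, hδ.2, hsum.symm⟩

/-- the claim -/
theorem claim [CharZero K] (L : Submodule K (End K W))
    (br : ∀ X ∈ L, ∀ Y ∈ L, X * Y - Y * X ∈ L)
    (w : W) (hmax : ∀ u : W, u ≠ 0 → finrank K (DD L u) ≤ finrank K (DD L w))
    (u u' : W) (hu : u ≠ 0) (hu' : u' ≠ 0) (l l' : W →ₗ[K] K) (hl : l ∈ DD L u)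
    (hl' : l' ∈ DD L u') (hlw : l w ≠ 0) (hl'w : l' w ≠ 0)
    (hind : ∀ δ ∈ DD L w, ∀ c : K, l' ≠ δ + c • l)
    (δ : W →ₗ[K] K) (hδ : δ ∈ DD L w) (hδu : δ u = 0) : δ u' = 0 := by
  have h2 : (2 : K) ≠ 0 := two_ne_zero
  by_contra hδu'
  -- the moved pair
  have move : ∀ (u : W) (l δ : W →ₗ[K] K), u ≠ 0 → l ∈ DD L u → l w ≠ 0 → δ ∈ DD L w → ∀ t : K,
      u + (t * δ u) • w ≠ 0 ∧ (l - (t * l w) • δ) ∈ DD L (u + (t * δ u) • w) ∧
      (l - (t * l w) • δ) w ≠ 0 := by
    intro u l δ hu hl hlw hδ t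
    refine ⟨?_, ⟨?_, conj_mem h2 L br u w l δ hl.2 hδ t⟩, ?_⟩
    · intro h
      have h3 : l (u + (t * δ u) • w) = 0 := by rw [h]; simp
      rw [map_add, map_smul, hl.1, zero_add, smul_eq_mul] at h3
      have h4 : t * δ u = 0 := by
        rcases mul_eq_zero.1 h3 with h5 | h5
        · exact h5
        · exact absurd h5 hlw
      rw [h4, zero_smul, add_zero] at h
      exact hu h
    · simp only [LinearMap.sub_apply, LinearMap.smul_apply, map_add, map_smul, smul_eq_mul, hl.1,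
        hδ.1]
      ring
    · simp only [LinearMap.sub_apply, LinearMap.smul_apply, smul_eq_mul, hδ.1, mul_zero, sub_zero]
      exact hlw
  -- we may assume l' u ≠ 0
  obtain ⟨u, l, hu, hl, hlw, hind, hδu, hl'u⟩ : ∃ (u : W) (l : W →ₗ[K] K), u ≠ 0 ∧ l ∈ DD L u ∧
      l w ≠ 0 ∧ (∀ δ ∈ DD L w, ∀ c : K, l' ≠ δ + c • l) ∧ δ u = 0 ∧ l' u ≠ 0 := by
    by_cases h : l' u = 0
    · obtain ⟨⟨δ', hδ', hδ'u⟩, -⟩ := struc L br w hmax u hu l hl hlw
      obtain ⟨h3, h4, h5⟩ := move u l δ' hu hl hlw hδ' 1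
      refine ⟨_, _, h3, h4, h5, ?_, ?_, ?_⟩
      · intro δ₁ hδ₁ c hc
        refine hind (δ₁ - (c * (1 * l w)) • δ') (Submodule.sub_mem _ hδ₁
          (Submodule.smul_mem _ _ hδ')) c ?_
        rw [hc, smul_sub, smul_smul]
        abel
      · rw [map_add, map_smul, hδu, hδ.1]; simp
      · rw [map_add, map_smul, h, zero_add, smul_eq_mul]
        exact mul_ne_zero (mul_ne_zero one_ne_zero hδ'u) hl'w
    · exact ⟨u, l, hu, hl, hlw, hind, hδu, h⟩
  -- move the second pair
  set t : K := -(l u') / (δ u' * l w) with ht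
  obtain ⟨h3, h4, h5⟩ := move u' l' δ hu' hl' hl'w hδ t
  have hlu' : l (u' + (t * δ u') • w) = 0 := by
    rw [map_add, map_smul, smul_eq_mul, ht]
    field_simp
    ring
  have hbr := br _ hl.2 _ h4.2
  rw [bra, hlu', zero_smul, zero_sub] at hbr
  have h6 : (l' - (t * l' w) • δ) u = l' u := by
    simp only [LinearMap.sub_apply, LinearMap.smul_apply, hδu, smul_zero, sub_zero]
  rw [h6] at hbr
  have hmem : l ∈ DD L (u' + (t * δ u') • w) := by
    refine ⟨hlu', ?_⟩
    have := L.smul_mem (-(l' u)⁻¹) hbr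
    rwa [smul_neg, neg_smul, neg_neg, smul_smul, inv_mul_cancel₀ hl'u, one_smul] at this
  obtain ⟨-, h7⟩ := struc L br w hmax _ h3 _ h4 h5
  obtain ⟨δ₁, hδ₁, c, -, hc⟩ := h7 l hmem
  have hcw : l w = c * l' w := by
    rw [hc]
    simp only [LinearMap.add_apply, LinearMap.sub_apply, LinearMap.smul_apply, smul_eq_mul, hδ₁.1,
      hδ.1]
    ring
  have hc0 : c ≠ 0 := by
    rintro rfl
    rw [zero_mul] at hcw
    exact hlw hcw
  refine hind ((t * l' w) • δ - c⁻¹ • δ₁) (Submodule.sub_mem _ (Submodule.smul_mem _ _ hδ)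
    (Submodule.smul_mem _ _ hδ₁)) c⁻¹ ?_
  rw [hc, smul_add, smul_smul, inv_mul_cancel₀ hc0, one_smul]
  abel

end

theorem sl2 : Sl2Stmt.{u, v} := by
  intro K W _ _ _ _ _ L O hF x f φ hx hf hind hfx hφx hfL hφL
  classical
  -- a maximal vector
  obtain ⟨w, hw, hmax⟩ : ∃ w : W, w ≠ 0 ∧
      ∀ u : W, u ≠ 0 → finrank K (DD L u) ≤ finrank K (DD L w) := by
    let S : Set ℕ := {n | ∃ u : W, u ≠ 0 ∧ finrank K (DD L u) = n}
    have hne : S.Nonempty := ⟨_, x, hx, rfl⟩
    have hbdd : BddAbove S := by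
      refine ⟨finrank K (W →ₗ[K] K), ?_⟩
      rintro n ⟨u, -, rfl⟩
      exact Submodule.finrank_le _
    obtain ⟨w, hw, hwS⟩ := Nat.sSup_mem hne hbdd
    refine ⟨w, hw, fun u hu => ?_⟩
    rw [hwS]
    exact le_csSup hbdd ⟨u, hu, rfl⟩
  have hd2 : 2 ≤ finrank K (DD L w) := by
    refine le_trans ?_ (hmax x hx)
    have h1 := finrank_sup_span (⊥ : Submodule K (W →ₗ[K] K)) f (by simpa using hf)
    have h2 := finrank_sup_span (⊥ ⊔ K ∙ f) φ (by
      rw [bot_sup_eq, Submodule.mem_span_singleton]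
      rintro ⟨c, hc⟩
      exact hind c hc.symm)
    have h3 : (⊥ ⊔ K ∙ f) ⊔ K ∙ φ ≤ DD L x := by
      refine sup_le (sup_le bot_le ?_) ?_
      · rw [Submodule.span_singleton_le_iff_mem]; exact ⟨hfx, hfL⟩
      · rw [Submodule.span_singleton_le_iff_mem]; exact ⟨hφx, hφL⟩
    have h4 := Submodule.finrank_mono h3
    omega
  -- elements of `O` in terms of pairs
  have hO : ∀ M ∈ O, ∀ z : W, M z ≠ 0 → ∃ (u : W) (l : W →ₗ[K] K), u ≠ 0 ∧ l ∈ DD L u ∧
      M = l.smulRight u ∧ l z ≠ 0 := by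
    intro M hM z hz
    obtain ⟨u, l, hu, hl, rfl⟩ := hF.rk M hM
    refine ⟨u, l, hu, ⟨?_, hF.sub _ hM⟩, rfl, ?_⟩
    · have h := hF.sq _ hM
      obtain ⟨y, hy⟩ : ∃ y, l y ≠ 0 := by
        by_contra hcon
        push Not at hcon
        exact hl (LinearMap.ext hcon)
      have h3 := LinearMap.congr_fun h y
      simp only [Module.End.mul_apply, LinearMap.smulRight_apply, map_smul, LinearMap.zero_apply,
        smul_smul, smul_eq_zero, mul_eq_zero] at h3
      rcases h3 with (h3 | h3) | h3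
      · exact absurd h3 hy
      · exact h3
      · exact absurd h3 hu
    · intro h
      apply hz
      simp [h]
  obtain ⟨M₀, hM₀, hM₀w⟩ : ∃ M ∈ O, M w ≠ 0 := by
    by_contra hcon
    push Not at hcon
    exact hw (hF.fix w hcon)
  obtain ⟨u, l, hu, hl, -, hlw⟩ := hO M₀ hM₀ w hM₀w
  -- a nonzero `δ` killing `u`
  obtain ⟨δ, hδ, hδ0, hδu⟩ : ∃ δ ∈ DD L w, δ ≠ 0 ∧ δ u = 0 := by
    by_contra hcon
    push Not at hcon
    have hinj : Function.Injective
        ((LinearMap.applyₗ (R := K) (M₂ := K) u).domRestrict (DD L w)) := by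
      refine (injective_iff_map_eq_zero _).2 ?_
      rintro ⟨δ, hδ⟩ hker
      have h3 : δ u = 0 := hker
      by_contra hne
      refine hcon δ hδ ?_ h3
      intro h
      exact hne (Subtype.ext h)
    have := LinearMap.finrank_le_finrank_of_injective hinj
    rw [Module.finrank_self] at this
    omega
  refine ⟨w, hw, ?_⟩
  -- `DD L w + K l` is everything
  have htop : DD L w ⊔ K ∙ l = ⊤ := by
    by_contra hne
    obtain ⟨z, hz0, hz⟩ : ∃ z : W, z ≠ 0 ∧ ∀ θ ∈ DD L w ⊔ K ∙ l, θ z = 0 := by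
      have h3 : (DD L w ⊔ K ∙ l).dualCoannihilator ≠ ⊥ := by
        intro h
        apply hne
        have h4 := Subspace.dualCoannihilator_dualAnnihilator_eq (W := DD L w ⊔ K ∙ l)
        rw [h, Submodule.dualAnnihilator_bot] at h4
        exact h4.symm
      obtain ⟨z, hz, hz0⟩ := Submodule.exists_mem_ne_zero_of_ne_bot h3
      refine ⟨z, hz0, fun θ hθ => ?_⟩
      rw [Submodule.mem_dualCoannihilator] at hz
      exact hz θ hθ
    -- for `M` not killing `w` and `z`, `δ ∘ M = 0`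
    have hkill : ∀ M ∈ O, M w ≠ 0 → M z ≠ 0 → ∀ y, δ (M y) = 0 := by
      intro M hM hMw hMz y
      obtain ⟨u', l', hu', hl', rfl, hl'w⟩ := hO M hM w hMw
      have hl'z : l' z ≠ 0 := by
        intro h
        apply hMz
        simp [h]
      have h3 : δ u' = 0 := by
        refine claim L hF.br w hmax u u' hu hu' l l' hl hl' hlw hl'w ?_ δ hδ hδu
        intro δ₁ hδ₁ c hc
        apply hl'z
        apply hz
        rw [hc]
        exact Submodule.add_mem_sup hδ₁ (Submodule.smul_mem _ _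
          (Submodule.mem_span_singleton_self _))
      simp [h3]
    obtain ⟨M₁, hM₁, hM₁z⟩ : ∃ M ∈ O, M z ≠ 0 := by
      by_contra hcon
      push Not at hcon
      exact hz0 (hF.fix z hcon)
    obtain ⟨θ₁, hθ₁⟩ := exists_fun_ne (K := K) hM₀w
    obtain ⟨θ₂, hθ₂⟩ := exists_fun_ne (K := K) hM₁z
    apply hδ0
    apply hF.full
    intro M hM y
    have key := hF.irr (θ₁ ∘ₗ LinearMap.applyₗ (R := K) w) (θ₂ ∘ₗ LinearMap.applyₗ (R := K) z)
      (δ ∘ₗ LinearMap.applyₗ (R := K) y) ?_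
    · rcases key with h3 | h3 | h3
      · exact absurd (h3 M₀ hM₀) hθ₁
      · exact absurd (h3 M₁ hM₁) hθ₂
      · exact h3 M hM
    · intro M' hM'
      show θ₁ (M' w) * θ₂ (M' z) * δ (M' y) = 0
      by_cases h3 : M' w = 0
      · simp [h3]
      by_cases h4 : M' z = 0
      · simp [h4]
      rw [hkill M' hM' h3 h4 y, mul_zero]
  intro θ hθ
  have hmem : θ ∈ DD L w ⊔ K ∙ l := by rw [htop]; trivial
  rw [Submodule.mem_sup] at hmem
  obtain ⟨δ₁, hδ₁, y, hy, hsum⟩ := hmem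
  rw [Submodule.mem_span_singleton] at hy
  obtain ⟨c, rfl⟩ := hy
  have h3 : c = 0 := by
    rw [← hsum] at hθ
    simp only [LinearMap.add_apply, LinearMap.smul_apply, smul_eq_mul, hδ₁.1, zero_add] at hθ
    rcases mul_eq_zero.1 hθ with h | h
    · exact h
    · exact absurd h hlw
  rw [← hsum, h3, zero_smul, add_zero]
  exact hδ₁.2

end Pool.Agent.MT4.H7
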